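import Mathlib
import Pool.Agent.VM5.Stmts
import Pool.Agent.Helper98_VM5.Ta

/-!
# AV1: one Weyl step, then progressions
-/

set_option autoImplicit false

namespace Pool.Agent.VM5.H10

open Pool.Agent.Helper69_Weyl (ee)
open Pool.Agent.VM5

theorem icc_of_conn (K : ℕ) (J : Finset ℕ) (hJ : J ⊆ Finset.Icc 1 K)
    (hc : ∀ a ∈ J, ∀ b ∈ J, ∀ m, a ≤ m → m ≤ b → m ∈ J) :
    ∃ lh : ℕ × ℕ, 1 ≤ lh.1 ∧ lh.2 ≤ K ∧ J = Finset.Icc lh.1 lh.2 := by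
  rcases J.eq_empty_or_nonempty with h | h
  · exact ⟨(1, 0), le_rfl, Nat.zero_le _, by rw [h]; rfl⟩
  · refine ⟨(J.min' h, J.max' h), ?_, ?_, ?_⟩
    · exact (Finset.mem_Icc.1 (hJ (J.min'_mem h))).1
    · exact (Finset.mem_Icc.1 (hJ (J.max'_mem h))).2
    · ext m
      rw [Finset.mem_Icc]
      constructor
      · intro hm
        exact ⟨J.min'_le m hm, J.le_max' m hm⟩
      · rintro ⟨h1, h2⟩
        exact hc _ (J.min'_mem h) _ (J.max'_mem h) m h1 h2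

/-- the progression `r + d m`, `1 ≤ m ≤ K`, in `[1, X]` -/
theorem prog_icc (K d : ℕ) (r X : ℤ) :
    ∃ lh : ℕ × ℕ, 1 ≤ lh.1 ∧ lh.2 ≤ K ∧
      (Finset.Icc 1 K).filter (fun m : ℕ => 1 ≤ r + (d : ℤ) * m ∧ r + (d : ℤ) * m ≤ X) =
        Finset.Icc lh.1 lh.2 := by
  refine icc_of_conn K _ (Finset.filter_subset _ _) ?_
  intro a ha b hb m h1 h2
  simp only [Finset.mem_filter, Finset.mem_Icc] at ha hb ⊢
  have e1 : (d : ℤ) * a ≤ (d : ℤ) * m :=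
    mul_le_mul_of_nonneg_left (by exact_mod_cast h1) (by positivity)
  have e2 : (d : ℤ) * m ≤ (d : ℤ) * b :=
    mul_le_mul_of_nonneg_left (by exact_mod_cast h2) (by positivity)
  refine ⟨⟨by omega, by omega⟩, by linarith [ha.2.1], by linarith [hb.2.2]⟩

theorem av1 (wd1 : Wd1Stmt) (avg : VM.AvgStmt) : Av1Stmt := by
  intro t ξ N K S hK hS
  have hex : ∀ p : ℕ × ℕ × ℤ, ∃ lh : ℕ × ℕ, 1 ≤ lh.1 ∧ lh.2 ≤ K ∧
      (Finset.Icc 1 K).filter (fun m : ℕ => 1 ≤ p.2.2 + (p.2.1 : ℤ) * m ∧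
        p.2.2 + (p.2.1 : ℤ) * m ≤ ((N - p.1 : ℕ) : ℤ)) = Finset.Icc lh.1 lh.2 :=
    fun p => prog_icc K p.2.1 p.2.2 _
  choose lh h1 h2 h3 using hex
  refine ⟨fun p => (lh p).1, fun p => (lh p).2, h1, h2, ?_⟩
  set f : ℤ → ℝ := fun n => t * (n : ℝ) ^ 5 + ξ * (n : ℝ) with hf
  -- one progression
  have key : ∀ h ∈ Finset.Icc 1 N, ∀ d ∈ S,
      (K : ℝ) * ‖∑ n ∈ Finset.Icc (1 : ℤ) ((N : ℤ) - (h : ℤ)), ee (f (n + (h : ℤ)) - f n)‖ ≤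
      ∑ r ∈ Finset.Icc (-(N : ℤ)) (N : ℤ),
        ‖∑ m ∈ Finset.Icc (lh (h, d, r)).1 (lh (h, d, r)).2,
          ee (∑ j : Fin 4, t * (co2 j (h, d, r) : ℝ) * (m : ℝ) ^ ((j : ℕ) + 1))‖ := by
    intro h hh d hd
    have hhN : h ≤ N := (Finset.mem_Icc.1 hh).2
    have hc : ((N : ℤ) - (h : ℤ)) = ((N - h : ℕ) : ℤ) := by push_cast [hhN]; ring
    rw [hc]
    refine (avg N K d (N - h) (fun n => ee (f (n + (h : ℤ)) - f n)) hK (hS d hd).1 (hS d hd).2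
      (Nat.sub_le _ _)).trans (le_of_eq ?_)
    apply Finset.sum_congr rfl
    intro r _
    have e3 := h3 (h, d, r)
    simp only at e3
    rw [e3]
    have e4 : ∀ m ∈ Finset.Icc (lh (h, d, r)).1 (lh (h, d, r)).2,
        ee (f (r + (d : ℤ) * (m : ℤ) + (h : ℤ)) - f (r + (d : ℤ) * (m : ℤ))) =
        ee (t * (((r : ℝ) + (h : ℝ)) ^ 5 - (r : ℝ) ^ 5) + ξ * (h : ℝ)) *
          ee (∑ j : Fin 4, t * (co2 j (h, d, r) : ℝ) * (m : ℝ) ^ ((j : ℕ) + 1)) := by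
      intro m _
      rw [← Pool.Agent.Helper69_Weyl.ee_add]
      congr 1
      have := H98.ta1 t ξ (h, d, r) (m : ℝ)
      simp only at this
      rw [← this]
      simp only [hf]
      push_cast
      ring
    rw [Finset.sum_congr rfl e4, ← Finset.mul_sum, norm_mul, Pool.Agent.Helper69_Weyl.norm_ee,
      one_mul]
  have hw := wd1 f N
  have hWS : WS t ξ N = ∑ n ∈ Finset.Icc (1 : ℤ) (N : ℤ), ee (f n) := rfl
  rw [hWS]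
  have hsum : ∑ p ∈ P2 N S, ‖∑ m ∈ Finset.Icc (lh p).1 (lh p).2,
          ee (∑ j : Fin 4, t * (co2 j p : ℝ) * (m : ℝ) ^ ((j : ℕ) + 1))‖ =
      ∑ h ∈ Finset.Icc 1 N, ∑ d ∈ S, ∑ r ∈ Finset.Icc (-(N : ℤ)) (N : ℤ),
        ‖∑ m ∈ Finset.Icc (lh (h, d, r)).1 (lh (h, d, r)).2,
          ee (∑ j : Fin 4, t * (co2 j (h, d, r) : ℝ) * (m : ℝ) ^ ((j : ℕ) + 1))‖ := by
    unfold P2
    rw [Finset.sum_product]
    apply Finset.sum_congr rfl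
    intro h _
    rw [Finset.sum_product]
  rw [hsum]
  have hSK : (0 : ℝ) ≤ (S.card : ℝ) * (K : ℝ) := by positivity
  calc (S.card : ℝ) * (K : ℝ) * ‖∑ n ∈ Finset.Icc (1 : ℤ) (N : ℤ), ee (f n)‖ ^ 2
      ≤ (S.card : ℝ) * (K : ℝ) * ((N : ℝ) +
        2 * ∑ h ∈ Finset.Icc 1 N, ‖∑ n ∈ Finset.Icc (1 : ℤ) ((N : ℤ) - (h : ℤ)),
          ee (f (n + (h : ℤ)) - f n)‖) := mul_le_mul_of_nonneg_left hw hSK
    _ = (S.card : ℝ) * (K : ℝ) * (N : ℝ) +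
        2 * ∑ h ∈ Finset.Icc 1 N, ∑ d ∈ S, (K : ℝ) *
          ‖∑ n ∈ Finset.Icc (1 : ℤ) ((N : ℤ) - (h : ℤ)), ee (f (n + (h : ℤ)) - f n)‖ := by
        simp only [Finset.sum_const, nsmul_eq_mul]
        rw [← Finset.mul_sum, ← Finset.mul_sum]
        ring
    _ ≤ _ := by
        have : ∑ h ∈ Finset.Icc 1 N, ∑ d ∈ S, (K : ℝ) *
          ‖∑ n ∈ Finset.Icc (1 : ℤ) ((N : ℤ) - (h : ℤ)), ee (f (n + (h : ℤ)) - f n)‖ ≤
          ∑ h ∈ Finset.Icc 1 N, ∑ d ∈ S, ∑ r ∈ Finset.Icc (-(N : ℤ)) (N : ℤ),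
            ‖∑ m ∈ Finset.Icc (lh (h, d, r)).1 (lh (h, d, r)).2,
              ee (∑ j : Fin 4, t * (co2 j (h, d, r) : ℝ) * (m : ℝ) ^ ((j : ℕ) + 1))‖ :=
          Finset.sum_le_sum fun h hh => Finset.sum_le_sum fun d hd => key h hh d hd
        linarith

end Pool.Agent.VM5.H10
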