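import Mathlib
import Pool.Agent.VM5.StmtsB
import Pool.Agent.Helper5_VM5.Bl2

/-!
# Module B2w: the bound of part II, second version (after the module BL2 of helper5)
-/

set_option autoImplicit false

namespace Pool.Agent.VM5.H10

open Pool.Agent.VM5
open Pool.Agent.Helper69_Weyl (ee)

theorem b2w (bcw : BcwStmt) (av1 : Av1Stmt) (dvb : DvbStmt) : B2wStmt := by
  intro ε hε
  obtain ⟨C₁, hC₁, hB⟩ := bcw ε hε
  obtain ⟨Cd, hCd, hd⟩ := H5.div_bound dvb (ε / 120) (by positivity)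
  obtain ⟨Cl, hCl, hl⟩ := H5.log_bound (ε / 40) (by positivity)
  refine ⟨2 ^ 19 * (1 + 2 ^ 20 * ((Cl * Cd) ^ 20 * C₁)), by positivity, ?_⟩
  intro N D K u t ξ b S hP hS
  have hP' := hP
  obtain ⟨h4, h5, hD, _, _, _, hDK, hu, _, _, hWD, _, hSS⟩ := hP'
  have hK : 1 ≤ K := by
    rcases Nat.eq_zero_or_pos K with h | h
    · rw [h] at hDK
      norm_num at hDK
      omega
    · exact h
  have hDKN : D * K ≤ N := by nlinarith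
  have hDN : D ≤ N := by nlinarith
  have hKN : K ≤ N := by nlinarith
  have hN : 1 ≤ N := by omega
  have hNr : (1 : ℝ) ≤ (N : ℝ) := by exact_mod_cast hN
  have hDr : (0 : ℝ) < (D : ℝ) := by exact_mod_cast (by omega : 0 < D)
  have hKr : (0 : ℝ) < (K : ℝ) := by exact_mod_cast (by omega : 0 < K)
  have hur : (0 : ℝ) < (u : ℝ) := by exact_mod_cast (by omega : 0 < u)
  have hNpos : (0 : ℝ) < (N : ℝ) := by linarith
  have hDNr : (D : ℝ) ≤ (N : ℝ) := by exact_mod_cast hDN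
  have hKNr : (K : ℝ) ≤ (N : ℝ) := by exact_mod_cast hKN
  have hDKNr : (D : ℝ) * (K : ℝ) ≤ (N : ℝ) := by exact_mod_cast hDKN
  have hsr : (0 : ℝ) < (S.card : ℝ) := lt_of_lt_of_le (Real.rpow_pos_of_pos hDr _) hS
  -- `u ≤ N ^ 3`
  have huN : (u : ℝ) ≤ (N : ℝ) ^ 3 := by
    have h1 : (u : ℝ) ≤ WW N u t b := le_max_left _ _
    have h2 : (D : ℝ) * (K : ℝ) ^ 3 ≤ (N : ℝ) ^ 3 := by
      calc (D : ℝ) * (K : ℝ) ^ 3 = ((D : ℝ) * (K : ℝ)) * (K : ℝ) ^ 2 := by ring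
        _ ≤ (N : ℝ) * (N : ℝ) ^ 2 := by gcongr
        _ = (N : ℝ) ^ 3 := by ring
    linarith
  -- the number of classes
  set m : ℝ := ((Nat.log 2 N + 1 : ℕ) : ℝ) * ((u.divisors.card : ℕ) : ℝ) with hm
  have hm0 : 0 ≤ m := by positivity
  have hmb : m ≤ Cl * Cd * (N : ℝ) ^ (ε / 20) := by
    have h1 := hl N hN
    have h2 := hd u hu
    have h3 : (u : ℝ) ^ (ε / 120) ≤ (N : ℝ) ^ (ε / 40) := by
      calc (u : ℝ) ^ (ε / 120) ≤ ((N : ℝ) ^ 3) ^ (ε / 120) :=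
            Real.rpow_le_rpow hur.le huN (by positivity)
        _ = (N : ℝ) ^ (ε / 40) := by
            rw [← Real.rpow_natCast, ← Real.rpow_mul hNpos.le]
            congr 1
            push_cast
            ring
    calc m ≤ (Cl * (N : ℝ) ^ (ε / 40)) * (Cd * (u : ℝ) ^ (ε / 120)) := by
          apply mul_le_mul h1 h2 (by positivity) (by positivity)
      _ ≤ (Cl * (N : ℝ) ^ (ε / 40)) * (Cd * (N : ℝ) ^ (ε / 40)) := by gcongr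
      _ = Cl * Cd * ((N : ℝ) ^ (ε / 40) * (N : ℝ) ^ (ε / 40)) := by ring
      _ = Cl * Cd * (N : ℝ) ^ (ε / 20) := by
          rw [← Real.rpow_add hNpos]
          congr 2
          ring
  have hm20 : m ^ 20 ≤ (Cl * Cd) ^ 20 * (N : ℝ) ^ ε := by
    calc m ^ 20 ≤ (Cl * Cd * (N : ℝ) ^ (ε / 20)) ^ 20 := pow_le_pow_left₀ hm0 hmb 20
      _ = (Cl * Cd) ^ 20 * ((N : ℝ) ^ (ε / 20)) ^ 20 := by ring
      _ = (Cl * Cd) ^ 20 * (N : ℝ) ^ ε := by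
          congr 1
          rw [← Real.rpow_natCast, ← Real.rpow_mul hNpos.le]
          congr 1
          push_cast
          ring
  -- the bound for one class
  set B : ℝ := C₁ * (K : ℝ) ^ 20 * (N : ℝ) ^ (38 + ε) * (S.card : ℝ) ^ 18 * (D : ℝ) with hBd
  have hB0 : 0 ≤ B := by positivity
  set β : ℝ := B ^ ((1 : ℝ) / 20) with hβ
  have hβ0 : 0 ≤ β := Real.rpow_nonneg hB0 _
  have hβB : β ^ 20 = B := by
    rw [hβ, ← Real.rpow_natCast, ← Real.rpow_mul hB0]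
    norm_num
  obtain ⟨lo, hi, hlo, hhi, hA⟩ := av1 t ξ N K S hK (fun d hdS => by
    obtain ⟨ha, hb, _, _⟩ := hSS d hdS
    refine ⟨by omega, ?_⟩
    nlinarith)
  set X : ℕ × ℕ × ℤ → ℝ := fun p => ‖∑ m ∈ Finset.Icc (lo p) (hi p),
    ee (∑ j : Fin 4, t * (co2 j p : ℝ) * (m : ℝ) ^ ((j : ℕ) + 1))‖ with hX
  have hX0 : ∀ p, 0 ≤ X p := fun p => norm_nonneg _
  have hsum : ∑ p ∈ P2 N S, X p ≤ m * β := by
    apply H5.cover N u S hu X hX0 β hβ0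
    intro H g hg hgH hHN
    have h1 := hB N D K u H g t b S lo hi hlo hhi hP hg hgH hHN
    have h2 : (∑ p ∈ Cls N H g u S, X p) ^ 20 ≤ β ^ 20 := by
      rw [hβB]
      exact h1
    exact le_of_pow_le_pow_left₀ (by norm_num) hβ0 h2
  have hA' : (S.card : ℝ) * (K : ℝ) * ‖WS t ξ N‖ ^ 2 ≤
      (S.card : ℝ) * (K : ℝ) * (N : ℝ) + 2 * (m * β) := by
    have : (S.card : ℝ) * (K : ℝ) * ‖WS t ξ N‖ ^ 2 ≤
      (S.card : ℝ) * (K : ℝ) * (N : ℝ) + 2 * ∑ p ∈ P2 N S, X p := hA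
    linarith
  have hsk : 0 < (S.card : ℝ) * (K : ℝ) := by positivity
  have hW2 : ‖WS t ξ N‖ ^ 2 ≤ (N : ℝ) + 2 * (m * β) / ((S.card : ℝ) * (K : ℝ)) := by
    rw [← sub_nonneg]
    have h1 : 0 ≤ ((S.card : ℝ) * (K : ℝ) * (N : ℝ) + 2 * (m * β) -
      (S.card : ℝ) * (K : ℝ) * ‖WS t ξ N‖ ^ 2) / ((S.card : ℝ) * (K : ℝ)) :=
      div_nonneg (by linarith) hsk.le
    have h2 : ((S.card : ℝ) * (K : ℝ) * (N : ℝ) + 2 * (m * β) -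
      (S.card : ℝ) * (K : ℝ) * ‖WS t ξ N‖ ^ 2) / ((S.card : ℝ) * (K : ℝ)) =
      (N : ℝ) + 2 * (m * β) / ((S.card : ℝ) * (K : ℝ)) - ‖WS t ξ N‖ ^ 2 := by
      field_simp
    rw [← h2]
    exact h1
  set E : ℝ := 2 * (m * β) / ((S.card : ℝ) * (K : ℝ)) with hE
  have hE0 : 0 ≤ E := by positivity
  have hW40 : ‖WS t ξ N‖ ^ 40 ≤ 2 ^ 19 * ((N : ℝ) ^ 20 + E ^ 20) := by
    calc ‖WS t ξ N‖ ^ 40 = (‖WS t ξ N‖ ^ 2) ^ 20 := by ring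
      _ ≤ ((N : ℝ) + E) ^ 20 := pow_le_pow_left₀ (by positivity) hW2 20
      _ ≤ 2 ^ (20 - 1) * ((N : ℝ) ^ 20 + E ^ 20) := add_pow_le hNpos.le hE0 20
  -- the second term
  have hE20 : E ^ 20 = 2 ^ 20 * (m ^ 20 * (C₁ * (N : ℝ) ^ (38 + ε)) *
      ((D : ℝ) / (S.card : ℝ) ^ 2)) := by
    have h1 : E ^ 20 = 2 ^ 20 * (m ^ 20 * β ^ 20) / ((S.card : ℝ) ^ 20 * (K : ℝ) ^ 20) := by
      rw [hE, div_pow, mul_pow (2 : ℝ) (m * β), mul_pow m β, mul_pow (S.card : ℝ) (K : ℝ)]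
    rw [h1, hβB, hBd]
    have hK20 : (K : ℝ) ^ 20 ≠ 0 := by positivity
    have hs2 : (S.card : ℝ) ≠ 0 := hsr.ne'
    field_simp
  have hDs : (D : ℝ) / (S.card : ℝ) ^ 2 ≤ (N : ℝ) ^ (2 * ε) / (D : ℝ) := by
    rw [div_le_div_iff₀ (by positivity) hDr]
    have h1 : (D : ℝ) * (D : ℝ) = ((D : ℝ) ^ (1 - ε)) ^ 2 * (D : ℝ) ^ (2 * ε) := by
      rw [← Real.rpow_natCast, ← Real.rpow_mul hDr.le, ← Real.rpow_add hDr]
      have : (1 - ε) * ((2 : ℕ) : ℝ) + 2 * ε = ((2 : ℕ) : ℝ) := by push_cast; ring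
      rw [this, Real.rpow_natCast]
      ring
    rw [h1, mul_comm]
    have h2 : (D : ℝ) ^ (2 * ε) ≤ (N : ℝ) ^ (2 * ε) :=
      Real.rpow_le_rpow hDr.le hDNr (by positivity)
    have h3 : ((D : ℝ) ^ (1 - ε)) ^ 2 ≤ (S.card : ℝ) ^ 2 :=
      pow_le_pow_left₀ (Real.rpow_nonneg hDr.le _) hS 2
    exact mul_le_mul h2 h3 (by positivity) (by positivity)
  have hpow : (N : ℝ) ^ ε * (N : ℝ) ^ (38 + ε) * (N : ℝ) ^ (2 * ε) = (N : ℝ) ^ (38 + 4 * ε) := by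
    rw [← Real.rpow_add hNpos, ← Real.rpow_add hNpos]
    congr 1
    ring
  have hsecond : E ^ 20 ≤ 2 ^ 20 * ((Cl * Cd) ^ 20 * C₁) *
      ((N : ℝ) ^ (38 + 4 * ε) / (D : ℝ)) := by
    rw [hE20]
    calc 2 ^ 20 * (m ^ 20 * (C₁ * (N : ℝ) ^ (38 + ε)) * ((D : ℝ) / (S.card : ℝ) ^ 2)) ≤
          2 ^ 20 * (((Cl * Cd) ^ 20 * (N : ℝ) ^ ε) * (C₁ * (N : ℝ) ^ (38 + ε)) *
            ((N : ℝ) ^ (2 * ε) / (D : ℝ))) := by
          gcongr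
      _ = 2 ^ 20 * ((Cl * Cd) ^ 20 * C₁) *
            (((N : ℝ) ^ ε * (N : ℝ) ^ (38 + ε) * (N : ℝ) ^ (2 * ε)) / (D : ℝ)) := by
          ring
      _ = _ := by rw [hpow]
  have hfirst : (N : ℝ) ^ 20 ≤ (N : ℝ) ^ (38 + 4 * ε) / (D : ℝ) := by
    rw [le_div_iff₀ hDr]
    have h1 : (N : ℝ) ^ 20 * (D : ℝ) ≤ (N : ℝ) ^ 21 := by
      calc (N : ℝ) ^ 20 * (D : ℝ) ≤ (N : ℝ) ^ 20 * (N : ℝ) := by gcongr
        _ = (N : ℝ) ^ 21 := by ring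
    have h2 : (N : ℝ) ^ 21 ≤ (N : ℝ) ^ (38 + 4 * ε) := by
      rw [← Real.rpow_natCast]
      apply Real.rpow_le_rpow_of_exponent_le hNr
      push_cast
      linarith
    exact h1.trans h2
  calc ‖WS t ξ N‖ ^ 40 ≤ 2 ^ 19 * ((N : ℝ) ^ 20 + E ^ 20) := hW40
    _ ≤ 2 ^ 19 * ((N : ℝ) ^ (38 + 4 * ε) / (D : ℝ) + 2 ^ 20 * ((Cl * Cd) ^ 20 * C₁) *
      ((N : ℝ) ^ (38 + 4 * ε) / (D : ℝ))) := by gcongr
    _ = 2 ^ 19 * (1 + 2 ^ 20 * ((Cl * Cd) ^ 20 * C₁)) * (N : ℝ) ^ (38 + 4 * ε) / (D : ℝ) := by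
      ring

end Pool.Agent.VM5.H10
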