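import Mathlib
import Pool.Agent.VM5.StmtsB
import Pool.Agent.Helper98_VM5.Kit

/-!
# Module HCw: the number of `(h, h', d, d')` in the case `c₁ W < K ^ 3`
-/

set_option autoImplicit false

namespace Pool.Agent.VM5.H10

open Pool.Agent.VM5

theorem mem_P2' {N : ℕ} {S : Finset ℕ} {h d : ℕ} {r : ℤ} (h1 : 1 ≤ h) (h2 : h ≤ N) (hd : d ∈ S)
    (hr : |r| ≤ (N : ℤ)) : (h, d, r) ∈ P2 N S := by
  unfold P2
  simp only [Finset.mem_product, Finset.mem_Icc]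
  exact ⟨⟨h1, h2⟩, hd, abs_le.1 hr⟩

/-- the numbers in the case `|t - b / u| u N ^ 5 ≤ u` -/
theorem hcw_num (N D K u H g : ℕ) (W X Cm : ℝ) (hCm : 0 < Cm) (hX : 0 < X) (hN : 1 ≤ N)
    (hK : 1 ≤ K) (hD1 : 1 ≤ D) (hDK : D ≤ K ^ 2) (hDu : D ≤ u) (hNu : N ≤ 4 * u) (hg : 1 ≤ g)
    (hgH : g ≤ H) (hHN : H ≤ N) (hWu : W = (u : ℝ)) :
    Cm * X * (g : ℝ) ^ 2 * (1 + (N : ℝ) / (u : ℝ)) ^ 2 *
      ((D : ℝ) ^ 2 * W / (K : ℝ) ^ 2 + (D : ℝ) ^ 2 + (u : ℝ)) ≤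
    75 * Cm * X * ((g : ℝ) * (N : ℝ) / (H : ℝ)) ^ 2 * (W * (D : ℝ)) := by
  have hu1 : 1 ≤ u := by omega
  have hu0 : (0 : ℝ) < (u : ℝ) := by exact_mod_cast hu1
  have hK0 : (0 : ℝ) < (K : ℝ) := by exact_mod_cast hK
  have hD0 : (0 : ℝ) < (D : ℝ) := by exact_mod_cast hD1
  have hD1' : (1 : ℝ) ≤ (D : ℝ) := by exact_mod_cast hD1
  have hN0 : (0 : ℝ) < (N : ℝ) := by exact_mod_cast hN
  have hH0 : (0 : ℝ) < (H : ℝ) := by exact_mod_cast (by omega : 0 < H)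
  have hg0 : (0 : ℝ) < (g : ℝ) := by exact_mod_cast hg
  have hDK' : (D : ℝ) ≤ (K : ℝ) ^ 2 := by exact_mod_cast hDK
  have hDu' : (D : ℝ) ≤ (u : ℝ) := by exact_mod_cast hDu
  have hNu' : (N : ℝ) ≤ 4 * (u : ℝ) := by exact_mod_cast hNu
  have hHN' : (H : ℝ) ≤ (N : ℝ) := by exact_mod_cast hHN
  have e1 : (1 + (N : ℝ) / (u : ℝ)) ^ 2 ≤ 25 := by
    have : (N : ℝ) / (u : ℝ) ≤ 4 := by rw [div_le_iff₀ hu0]; exact hNu'
    have h0 : (0 : ℝ) ≤ (N : ℝ) / (u : ℝ) := by positivity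
    calc (1 + (N : ℝ) / (u : ℝ)) ^ 2 ≤ 5 ^ 2 := pow_le_pow_left₀ (by positivity) (by linarith) 2
      _ = 25 := by norm_num
  have e2 : (g : ℝ) ^ 2 ≤ ((g : ℝ) * (N : ℝ) / (H : ℝ)) ^ 2 := by
    refine pow_le_pow_left₀ hg0.le ?_ 2
    rw [le_div_iff₀ hH0]
    exact mul_le_mul_of_nonneg_left hHN' hg0.le
  have e3 : (D : ℝ) ^ 2 * W / (K : ℝ) ^ 2 ≤ W * (D : ℝ) := by
    rw [div_le_iff₀ (by positivity), hWu]
    have := mul_le_mul_of_nonneg_left hDK' (mul_nonneg hu0.le hD0.le)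
    calc (D : ℝ) ^ 2 * (u : ℝ) = (u : ℝ) * (D : ℝ) * (D : ℝ) := by ring
      _ ≤ _ := this
  have e4 : (D : ℝ) ^ 2 ≤ W * (D : ℝ) := by
    rw [hWu, sq]
    exact mul_le_mul_of_nonneg_right hDu' hD0.le
  have e5 : (u : ℝ) ≤ W * (D : ℝ) := by
    rw [hWu]
    exact le_mul_of_one_le_right hu0.le hD1'
  have e6 : (D : ℝ) ^ 2 * W / (K : ℝ) ^ 2 + (D : ℝ) ^ 2 + (u : ℝ) ≤ 3 * (W * (D : ℝ)) := by
    linarith
  have hWD : 0 ≤ W * (D : ℝ) := by rw [hWu]; positivity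
  have hsum0 : 0 ≤ (D : ℝ) ^ 2 * W / (K : ℝ) ^ 2 + (D : ℝ) ^ 2 + (u : ℝ) := by
    rw [hWu]; positivity
  calc Cm * X * (g : ℝ) ^ 2 * (1 + (N : ℝ) / (u : ℝ)) ^ 2 *
      ((D : ℝ) ^ 2 * W / (K : ℝ) ^ 2 + (D : ℝ) ^ 2 + (u : ℝ))
      ≤ Cm * X * ((g : ℝ) * (N : ℝ) / (H : ℝ)) ^ 2 * 25 * (3 * (W * (D : ℝ))) := by
        refine mul_le_mul ?_ e6 hsum0 (by positivity)
        refine mul_le_mul ?_ e1 (by positivity) (by positivity)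
        exact mul_le_mul_of_nonneg_left e2 (by positivity)
    _ = _ := by ring

theorem hcw (sgw : SgwStmt) (stw : StwStmt) (htw : HtwStmt) (hpw : HpwStmt) (hcn : HcnStmt) :
    HcwStmt := by
  classical
  obtain ⟨Cs, hCs, hst⟩ := stw
  obtain ⟨Cg, hCg, hsg⟩ := sgw
  obtain ⟨Cp, hCp, hhp⟩ := hpw
  obtain ⟨Cn, hCn, hhn⟩ := hcn
  refine ⟨Cs + Cn, by positivity, ?_⟩
  intro ε hε
  obtain ⟨Ct, hCt, hht⟩ := htw Cs hCs ε hε
  obtain ⟨Cm, hCm, hhm⟩ := hhn ε hε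
  refine ⟨Ct * Cp + 75 * Cm, by positivity, ?_⟩
  intro N D K u H g t b S hpar hW hg hgH hHN
  have hpar' := hpar
  obtain ⟨p1, p2, p3, p4, p5, p6, p7, p8, p9, p10, p11, p12, p13⟩ := hpar'
  have hu0 : (0 : ℝ) < (u : ℝ) := by exact_mod_cast p8
  have hWu : (u : ℝ) ≤ WW N u t b := le_max_left _ _
  have hW0 : 0 < WW N u t b := lt_of_lt_of_le hu0 hWu
  have hN1 : 1 ≤ N := by omega
  have hN0 : (0 : ℝ) < (N : ℝ) := by exact_mod_cast hN1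
  have hK1 : 1 ≤ K := by
    rcases Nat.eq_zero_or_pos K with h | h
    · rw [h] at p2; omega
    · exact h
  have hD0 : (0 : ℝ) < (D : ℝ) := by exact_mod_cast (by omega : 0 < D)
  have hH0 : (0 : ℝ) < (H : ℝ) := by exact_mod_cast (by omega : 0 < H)
  have hg0 : (0 : ℝ) < (g : ℝ) := by exact_mod_cast hg
  have hX : (0 : ℝ) < (N : ℝ) ^ ε := by positivity
  have hWs : Cs * WW N u t b < (K : ℝ) ^ 3 := by
    have : 0 < Cn * WW N u t b := mul_pos hCn hW0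
    linarith
  have hWn : Cn * WW N u t b < (K : ℝ) ^ 3 := by
    have : 0 < Cs * WW N u t b := mul_pos hCs hW0
    linarith
  have hR0 : 0 ≤ (N : ℝ) ^ ε * ((g : ℝ) * (N : ℝ) / (H : ℝ)) ^ 2 * (WW N u t b * (D : ℝ)) := by
    positivity
  rcases le_or_gt (|t - (b : ℝ) / (u : ℝ)| * (u : ℝ) * (N : ℝ) ^ 5) (u : ℝ) with hB | hB
  · -- `W = u`
    have hWeq : WW N u t b = (u : ℝ) := max_eq_left hB
    have hNu : N ≤ 4 * u := by
      rw [hWeq] at p12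
      exact_mod_cast p12
    have hDu : D ≤ u := by
      have : D ≤ D * K := Nat.le_mul_of_pos_right D hK1
      have h2 : 4 * D * K = 4 * (D * K) := by ring
      omega
    have hpar2 : Par2 N D K u t b S :=
      ⟨p1, p2, p3, p4, p5, p6, p7, hDu, p9, p10, p11, p13⟩
    refine (hhm N D K u H g t b S hpar2 hWn hg hgH hHN).trans ?_
    refine (hcw_num N D K u H g (WW N u t b) ((N : ℝ) ^ ε) Cm hCm hX hN1 hK1 (by omega) p7 hDu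
      hNu hg hgH hHN hWeq).trans ?_
    have : 0 ≤ Ct * Cp * ((N : ℝ) ^ ε * ((g : ℝ) * (N : ℝ) / (H : ℝ)) ^ 2 *
      (WW N u t b * (D : ℝ))) := by positivity
    calc 75 * Cm * (N : ℝ) ^ ε * ((g : ℝ) * (N : ℝ) / (H : ℝ)) ^ 2 * (WW N u t b * (D : ℝ))
        = 75 * Cm * ((N : ℝ) ^ ε * ((g : ℝ) * (N : ℝ) / (H : ℝ)) ^ 2 *
          (WW N u t b * (D : ℝ))) := by ring
      _ ≤ Ct * Cp * ((N : ℝ) ^ ε * ((g : ℝ) * (N : ℝ) / (H : ℝ)) ^ 2 *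
          (WW N u t b * (D : ℝ))) + 75 * Cm * ((N : ℝ) ^ ε * ((g : ℝ) * (N : ℝ) / (H : ℝ)) ^ 2 *
          (WW N u t b * (D : ℝ))) := by linarith
      _ = _ := by ring
  · -- `u < B`
    set P : (ℕ × ℕ) × (ℕ × ℕ) → Prop := fun x => H < 2 * x.1.1 ∧ x.1.1 ≤ H ∧ H < 2 * x.1.2 ∧
        x.1.2 ≤ H ∧ Nat.gcd x.1.1 u = g ∧ Nat.gcd x.1.2 u = g ∧
        x.2.1 ∈ S ∧ x.2.2 ∈ S ∧ x.2.1 ≠ x.2.2 ∧
        ∃ r r' : ℤ, |r| ≤ (N : ℤ) ∧ |r'| ≤ (N : ℤ) ∧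
          Close2 K t ((x.1.1, x.2.1, r), (x.1.2, x.2.2, r')) with hP
    set Q : ℕ × (ℕ × ℕ) → Prop := fun x => H < 2 * x.1 ∧ x.1 ≤ H ∧ Nat.gcd x.1 u = g ∧
        x.2.1 ∈ S ∧ x.2.2 ∈ S ∧ x.2.1 ≠ x.2.2 ∧
        ∃ σ : ℤ, |(σ : ℝ) / (u : ℝ) + (t - (b : ℝ) / (u : ℝ)) *
            (10 * (x.2.1 : ℝ) ^ 2 * ((x.2.2 : ℝ) ^ 10 - (x.2.1 : ℝ) ^ 10) /
              (x.2.2 : ℝ) ^ 10) * (x.1 : ℝ) ^ 3| ≤ Cs / (K : ℝ) ^ 2 ∧
          (u : ℤ) ∣ (10 * b * (x.2.1 : ℤ) ^ 2 * ((x.2.2 : ℤ) ^ 10 - (x.2.1 : ℤ) ^ 10)) *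
            (x.1 : ℤ) ^ 3 - σ * (x.2.2 : ℤ) ^ 10 with hQ
    have hPfin : {x | P x}.Finite := by
      refine Set.Finite.subset
        (((Finset.range (N + 1) ×ˢ Finset.range (N + 1)) ×ˢ (S ×ˢ S)).finite_toSet) ?_
      intro x hx
      obtain ⟨h1, h2, h3, h4, h5, h6, h7, h8, h9⟩ := hx
      simp only [Finset.coe_product, Set.mem_prod, Finset.mem_coe, Finset.mem_range]
      exact ⟨⟨by omega, by omega⟩, h7, h8⟩
    have hQfin : {x | Q x}.Finite := by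
      refine Set.Finite.subset ((Finset.range (N + 1) ×ˢ (S ×ˢ S)).finite_toSet) ?_
      intro x hx
      obtain ⟨h1, h2, h3, h4, h5, h6⟩ := hx
      simp only [Finset.coe_product, Set.mem_prod, Finset.mem_coe, Finset.mem_range]
      exact ⟨by omega, h4, h5⟩
    have hf : ∀ x, P x → Q (x.1.1, x.2) := by
      intro x hx
      obtain ⟨h1, h2, h3, h4, h5, h6, h7, h8, h9, r, r', h10, h11, h12⟩ := hx
      have i1 : (x.1.1, x.2.1, r) ∈ P2 N S := mem_P2' (by omega) (by omega) h7 h10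
      have i2 : (x.1.2, x.2.2, r') ∈ P2 N S := mem_P2' (by omega) (by omega) h8 h11
      obtain ⟨σ, e1, e2⟩ := hst N D K u t b S hpar hWs _ i1 _ i2 h12
      simp only [hQ]
      simp only at e1 e2
      exact ⟨h1, h2, h5, h7, h8, h9, σ, e1, e2⟩
    have hm : ∀ y, Q y → (Nat.card {x // P x ∧ (x.1.1, x.2) = y} : ℝ) ≤ Cp := by
      intro y hy
      obtain ⟨k1, k2, k3, k4, k5, k6⟩ := hy
      have hle := hhp N D K u t b S hpar y.1 y.2.1 y.2.2 (by omega) (by omega) k4 k5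
      refine le_trans ?_ hle
      have hcard : Nat.card {x // P x ∧ (x.1.1, x.2) = y} ≤
          Nat.card {h' : ℕ // 1 ≤ h' ∧ h' ≤ N ∧
            (u : ℤ) ∣ 5 * ((y.1 : ℤ) * (y.2.1 : ℤ) ^ 4 - (h' : ℤ) * (y.2.2 : ℤ) ^ 4) ∧
            |t - (b : ℝ) / (u : ℝ)| *
              (5 * |(y.1 : ℝ) * (y.2.1 : ℝ) ^ 4 - (h' : ℝ) * (y.2.2 : ℝ) ^ 4|) ≤
              1 / (K : ℝ) ^ 4} := by
        refine Kit.card_inj_le (fun x : (ℕ × ℕ) × (ℕ × ℕ) => x.1.2) ?_ ?_ ?_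
        · refine Set.Finite.subset (Finset.range (N + 1)).finite_toSet ?_
          intro h' hh'
          obtain ⟨l1, l2, l3⟩ := hh'
          simp only [Finset.mem_coe, Finset.mem_range]
          omega
        · rintro x ⟨hx, hxy⟩
          obtain ⟨h1, h2, h3, h4, h5, h6, h7, h8, h9, r, r', h10, h11, h12⟩ := hx
          have i1 : (x.1.1, x.2.1, r) ∈ P2 N S := mem_P2' (by omega) (by omega) h7 h10
          have i2 : (x.1.2, x.2.2, r') ∈ P2 N S := mem_P2' (by omega) (by omega) h8 h11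
          obtain ⟨⟨j1, j2⟩, _⟩ := hsg N D K u t b S hpar _ i1 _ i2 h12
          have hx1 : x.1.1 = y.1 := congrArg Prod.fst hxy
          have hx2 : x.2 = y.2 := congrArg Prod.snd hxy
          simp only [m4] at j1 j2
          rw [hx1, hx2] at j1
          rw [hx1, hx2] at j2
          refine ⟨by omega, by omega, ?_, ?_⟩
          · have e : 5 * ((y.1 : ℤ) * (y.2.1 : ℤ) ^ 4 - (x.1.2 : ℤ) * (y.2.2 : ℤ) ^ 4) =
                5 * (y.1 : ℤ) * (y.2.1 : ℤ) ^ 4 - 5 * (x.1.2 : ℤ) * (y.2.2 : ℤ) ^ 4 := by ring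
            rw [e]
            exact j1
          · have e : |t - (b : ℝ) / (u : ℝ)| *
                (5 * |(y.1 : ℝ) * (y.2.1 : ℝ) ^ 4 - (x.1.2 : ℝ) * (y.2.2 : ℝ) ^ 4|) =
                |(t - (b : ℝ) / (u : ℝ)) * (((5 * (y.1 : ℤ) * (y.2.1 : ℤ) ^ 4 : ℤ) : ℝ) -
                  ((5 * (x.1.2 : ℤ) * (y.2.2 : ℤ) ^ 4 : ℤ) : ℝ))| := by
              rw [abs_mul]
              congr 1
              push_cast
              rw [show (5 : ℝ) * (y.1 : ℝ) * (y.2.1 : ℝ) ^ 4 - 5 * (x.1.2 : ℝ) * (y.2.2 : ℝ) ^ 4 =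
                5 * ((y.1 : ℝ) * (y.2.1 : ℝ) ^ 4 - (x.1.2 : ℝ) * (y.2.2 : ℝ) ^ 4) by ring,
                abs_mul, abs_of_pos (by norm_num : (0 : ℝ) < 5)]
            rw [e]
            exact j2
        · rintro x x' ⟨_, hxy⟩ ⟨_, hxy'⟩ hh
          have h1 : x.1.1 = x'.1.1 := (congrArg Prod.fst hxy).trans (congrArg Prod.fst hxy').symm
          have h2 : x.2 = x'.2 := (congrArg Prod.snd hxy).trans (congrArg Prod.snd hxy').symm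
          exact Prod.ext (Prod.ext h1 hh) h2
      exact_mod_cast hcard
    have hmain := Kit.card_fib_le' hPfin hQfin (fun x => (x.1.1, x.2)) Cp hf hm
    have hT := hht N D K u H g t b S hpar hB hg hgH hHN
    calc (Nat.card {x // P x} : ℝ) ≤ (Nat.card {y // Q y} : ℝ) * Cp := hmain
      _ ≤ (Ct * (N : ℝ) ^ ε * ((g : ℝ) * (N : ℝ) / (H : ℝ)) ^ 2 * (WW N u t b * (D : ℝ))) * Cp :=
          mul_le_mul_of_nonneg_right hT hCp.le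
      _ = Ct * Cp * ((N : ℝ) ^ ε * ((g : ℝ) * (N : ℝ) / (H : ℝ)) ^ 2 *
          (WW N u t b * (D : ℝ))) := by ring
      _ ≤ Ct * Cp * ((N : ℝ) ^ ε * ((g : ℝ) * (N : ℝ) / (H : ℝ)) ^ 2 *
          (WW N u t b * (D : ℝ))) + 75 * Cm * ((N : ℝ) ^ ε * ((g : ℝ) * (N : ℝ) / (H : ℝ)) ^ 2 *
          (WW N u t b * (D : ℝ))) := by
          have : 0 ≤ 75 * Cm * ((N : ℝ) ^ ε * ((g : ℝ) * (N : ℝ) / (H : ℝ)) ^ 2 *
            (WW N u t b * (D : ℝ))) := by positivity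
          linarith
      _ = _ := by ring

end Pool.Agent.VM5.H10
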