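import Mathlib
import Pool.Agent.VM5.Stmts

/-!
# MT5: the main proposition, from the bounds of parts II and III
-/

set_option autoImplicit false

namespace Pool.Agent.VM5.H10

open Pool.Agent.Helper69_Weyl (ee)
open Pool.Agent.VM5

theorem ws_le (t ξ : ℝ) (N : ℕ) : ‖WS t ξ N‖ ≤ (N : ℝ) := by
  unfold WS
  refine (norm_sum_le _ _).trans ?_
  simp [Pool.Agent.Helper69_Weyl.norm_ee]

/-- `D₀ ≤ N ^ θ` for `D₀ ^ 9 ≤ N`, `1 / 9 ≤ θ` -/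
theorem pow9 (D₀ N : ℕ) (θ : ℝ) (hN : 1 ≤ N) (h : D₀ ^ 9 ≤ N) (hθ : 1 / 9 ≤ θ) :
    (D₀ : ℝ) ≤ (N : ℝ) ^ θ := by
  have h1 : (1 : ℝ) ≤ (N : ℝ) := by exact_mod_cast hN
  have h2 : ((D₀ : ℝ)) ^ 9 ≤ (N : ℝ) := by exact_mod_cast h
  calc (D₀ : ℝ) = ((D₀ : ℝ) ^ 9) ^ ((1 : ℝ) / 9) := by
        rw [← Real.rpow_natCast, ← Real.rpow_mul (by positivity)]
        norm_num
    _ ≤ (N : ℝ) ^ ((1 : ℝ) / 9) := Real.rpow_le_rpow (by positivity) h2 (by norm_num)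
    _ ≤ (N : ℝ) ^ θ := Real.rpow_le_rpow_of_exponent_le h1 hθ

theorem case3 (bl3 : Bl3Stmt) (pru : PruStmt) (nu3 : Nu3Stmt) : ∃ (C : ℝ) (N₀ : ℕ), 1 ≤ C ∧
    ∀ (N u : ℕ) (t ξ : ℝ) (b : ℤ), N₀ ≤ N → 1 ≤ N → 1 ≤ u → Int.gcd b (u : ℤ) = 1 →
      |t - (b : ℝ) / (u : ℝ)| ≤ 1 / (u : ℝ) ^ 2 →
      (N : ℝ) ^ 2 ≤ (u : ℝ) * (N : ℝ) ^ ((83 : ℝ) / 1000) →
      (u : ℝ) ≤ (N : ℝ) ^ 3 * (N : ℝ) ^ ((83 : ℝ) / 1000) →
      ‖WS t ξ N‖ ^ 40 ≤ C * (N : ℝ) ^ ((3748 : ℝ) / 100) := by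
  obtain ⟨C, hC, hbl⟩ := bl3 (1 / 20000) (by norm_num)
  obtain ⟨D₀, hpru⟩ := pru 1 (1 / 20000) (by norm_num)
  obtain ⟨N₀, hnu⟩ := nu3
  refine ⟨max 1 C, max N₀ (D₀ ^ 9), le_max_left _ _, ?_⟩
  intro N u t ξ b hN hN1 hu hgcd htu h1 h2
  have hN1' : (1 : ℝ) ≤ (N : ℝ) := by exact_mod_cast hN1
  have hN0' : (0 : ℝ) < (N : ℝ) := by linarith
  obtain ⟨D, K, k1, k2, k3, k4, k5, k6, k7⟩ := hnu N ((le_max_left _ _).trans hN)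
  have hD0 : D₀ ≤ D := by
    have := (pow9 D₀ N (119 / 1000) hN1 ((le_max_right _ _).trans hN) (by norm_num)).trans k7
    exact_mod_cast this
  have hDpos : (0 : ℝ) < (D : ℝ) := by
    have : 0 < D := by omega
    exact_mod_cast this
  have hcard := hpru D 1 hD0 le_rfl (by rw [pow_one]; omega)
  have hG1 : (1 : ℝ) ≤ (N : ℝ) ^ ((83 : ℝ) / 1000) := Real.one_le_rpow hN1' (by norm_num)
  have hpar : Par3 N D K u ((N : ℝ) ^ ((83 : ℝ) / 1000)) t b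
      ((Finset.Ioc D (2 * D)).filter (fun d => d.Prime ∧ ¬ d ∣ 1)) := by
    refine ⟨k1, k2, k3, k4, k5, hG1, k6, h1, h2, hu, hgcd, htu, ?_⟩
    intro d hd
    rw [Finset.mem_filter, Finset.mem_Ioc] at hd
    exact ⟨hd.1.1, hd.1.2, hd.2.1⟩
  have hb := hbl N D K u _ t ξ b _ hpar hcard
  have hexp : ‖WS t ξ N‖ ^ 48 ≤ C * (N : ℝ) ^ ((44976 : ℝ) / 1000) := by
    refine hb.trans ?_
    rw [mul_div_assoc, mul_assoc]
    refine mul_le_mul_of_nonneg_left ?_ hC.le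
    have h3 : (N : ℝ) ^ ((83 : ℝ) / 1000) / (D : ℝ) ≤
        (N : ℝ) ^ ((83 : ℝ) / 1000) / (N : ℝ) ^ ((119 : ℝ) / 1000) :=
      div_le_div_of_nonneg_left (by positivity) (by positivity) k7
    calc (N : ℝ) ^ (45 + 8 * (1 / 20000 : ℝ)) * ((N : ℝ) ^ ((83 : ℝ) / 1000) / (D : ℝ))
        ≤ (N : ℝ) ^ (45 + 8 * (1 / 20000 : ℝ)) *
          ((N : ℝ) ^ ((83 : ℝ) / 1000) / (N : ℝ) ^ ((119 : ℝ) / 1000)) :=
          mul_le_mul_of_nonneg_left h3 (by positivity)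
      _ = (N : ℝ) ^ ((45 + 8 * (1 / 20000 : ℝ)) + ((83 : ℝ) / 1000 - 119 / 1000)) := by
          rw [← Real.rpow_sub hN0', ← Real.rpow_add hN0']
      _ ≤ (N : ℝ) ^ ((44976 : ℝ) / 1000) :=
          Real.rpow_le_rpow_of_exponent_le hN1' (by norm_num)
  have hX0 : 0 ≤ ‖WS t ξ N‖ := norm_nonneg _
  have hM1 : (1 : ℝ) ≤ max 1 C := le_max_left _ _
  have hfin : (‖WS t ξ N‖ ^ 40) ^ 6 ≤ (max 1 C * (N : ℝ) ^ ((3748 : ℝ) / 100)) ^ 6 := by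
    calc (‖WS t ξ N‖ ^ 40) ^ 6 = (‖WS t ξ N‖ ^ 48) ^ 5 := by
          rw [← pow_mul, ← pow_mul]
      _ ≤ (C * (N : ℝ) ^ ((44976 : ℝ) / 1000)) ^ 5 :=
          pow_le_pow_left₀ (by positivity) hexp 5
      _ = C ^ 5 * (N : ℝ) ^ ((22488 : ℝ) / 100) := by
          rw [mul_pow, ← Real.rpow_natCast ((N : ℝ) ^ ((44976 : ℝ) / 1000)) 5,
            ← Real.rpow_mul hN0'.le]
          norm_num
      _ ≤ (max 1 C) ^ 6 * (N : ℝ) ^ ((22488 : ℝ) / 100) := by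
          refine mul_le_mul_of_nonneg_right ?_ (by positivity)
          calc C ^ 5 ≤ (max 1 C) ^ 5 := pow_le_pow_left₀ hC.le (le_max_right _ _) 5
            _ ≤ (max 1 C) ^ 6 := pow_le_pow_right₀ hM1 (by norm_num)
      _ = (max 1 C * (N : ℝ) ^ ((3748 : ℝ) / 100)) ^ 6 := by
          rw [mul_pow, ← Real.rpow_natCast ((N : ℝ) ^ ((3748 : ℝ) / 100)) 6,
            ← Real.rpow_mul hN0'.le]
          norm_num
  exact le_of_pow_le_pow_left₀ (by norm_num) (by positivity) hfin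

theorem case2 (bl2 : Bl2Stmt) (pru : PruStmt) (nu2 : Nu2Stmt) : ∃ (C : ℝ) (N₀ : ℕ), 0 < C ∧
    ∀ (N u : ℕ) (t ξ : ℝ) (b : ℤ), N₀ ≤ N → 1 ≤ N → 1 ≤ u → Int.gcd b (u : ℤ) = 1 →
      WW N u t b ≤ 2 * (N : ℝ) ^ ((1917 : ℝ) / 1000) →
      u < N ^ 2 → (N : ℝ) ^ ((992 : ℝ) / 1000) ≤ 2 * (u : ℝ) →
      ‖WS t ξ N‖ ^ 40 ≤ C * (N : ℝ) ^ ((3748 : ℝ) / 100) * (1 + (N : ℝ) / (u : ℝ)) ^ 2 := by
  obtain ⟨C, hC, hbl⟩ := bl2 (1 / 20000) (by norm_num)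
  obtain ⟨D₀, hpru⟩ := pru 4 (1 / 20000) (by norm_num)
  obtain ⟨N₀, hnu⟩ := nu2
  refine ⟨C, max N₀ (D₀ ^ 9), hC, ?_⟩
  intro N u t ξ b hN hN1 hu hgcd hW h1 h2
  have hN1' : (1 : ℝ) ≤ (N : ℝ) := by exact_mod_cast hN1
  have hN0' : (0 : ℝ) < (N : ℝ) := by linarith
  obtain ⟨D, K, k1, k2, k3, k4, k5, k6, k7, k8, k9, k10, k11⟩ :=
    hnu N ((le_max_left _ _).trans hN)
  have hD0 : D₀ ≤ D := by
    have := (pow9 D₀ N (5205 / 10000) hN1 ((le_max_right _ _).trans hN) (by norm_num)).trans k9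
    exact_mod_cast this
  have hDpos : (0 : ℝ) < (D : ℝ) := by
    have : 0 < D := by omega
    exact_mod_cast this
  have hupos : (0 : ℝ) < (u : ℝ) := by exact_mod_cast hu
  have huD : u < D ^ 4 := by
    calc u < N ^ 2 := h1
      _ ≤ (D ^ 2) ^ 2 := Nat.pow_le_pow_left k4 2
      _ = D ^ 4 := by ring
  have hcard := hpru D u hD0 hu huD
  have hDu : D ≤ u := by
    have h3 : (N : ℝ) ^ ((99 : ℝ) / 100) ≤ (N : ℝ) ^ ((992 : ℝ) / 1000) :=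
      Real.rpow_le_rpow_of_exponent_le hN1' (by norm_num)
    have h4 : (D : ℝ) ≤ (u : ℝ) := by linarith
    exact_mod_cast h4
  have hpar : Par2 N D K u t b
      ((Finset.Ioc D (2 * D)).filter (fun d => d.Prime ∧ ¬ d ∣ u)) := by
    refine ⟨k1, k2, k3, k4, k5, k6, k7, hDu, hgcd, ?_, hW.trans k11, ?_⟩
    · calc 1000000 * WW N u t b ≤ 1000000 * (2 * (N : ℝ) ^ ((1917 : ℝ) / 1000)) :=
            mul_le_mul_of_nonneg_left hW (by norm_num)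
        _ = 2000000 * (N : ℝ) ^ ((1917 : ℝ) / 1000) := by ring
        _ ≤ (K : ℝ) ^ 4 := k10
    · intro d hd
      rw [Finset.mem_filter, Finset.mem_Ioc] at hd
      exact ⟨hd.1.1, hd.1.2, hd.2.1, hd.2.2⟩
  have hb := hbl N D K u t ξ b _ hpar hcard
  refine hb.trans ?_
  have h3 : (N : ℝ) ^ (38 + 4 * (1 / 20000 : ℝ)) / (D : ℝ) ≤ (N : ℝ) ^ ((3748 : ℝ) / 100) := by
    calc (N : ℝ) ^ (38 + 4 * (1 / 20000 : ℝ)) / (D : ℝ)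
        ≤ (N : ℝ) ^ (38 + 4 * (1 / 20000 : ℝ)) / (N : ℝ) ^ ((5205 : ℝ) / 10000) :=
          div_le_div_of_nonneg_left (by positivity) (by positivity) k9
      _ = (N : ℝ) ^ ((38 + 4 * (1 / 20000 : ℝ)) - 5205 / 10000) := by
          rw [← Real.rpow_sub hN0']
      _ ≤ (N : ℝ) ^ ((3748 : ℝ) / 100) :=
          Real.rpow_le_rpow_of_exponent_le hN1' (by norm_num)
  calc C * (N : ℝ) ^ (38 + 4 * (1 / 20000 : ℝ)) * (1 + (N : ℝ) / (u : ℝ)) ^ 2 / (D : ℝ)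
      = C * ((N : ℝ) ^ (38 + 4 * (1 / 20000 : ℝ)) / (D : ℝ)) * (1 + (N : ℝ) / (u : ℝ)) ^ 2 := by
        ring
    _ ≤ C * (N : ℝ) ^ ((3748 : ℝ) / 100) * (1 + (N : ℝ) / (u : ℝ)) ^ 2 := by
        refine mul_le_mul_of_nonneg_right ?_ (by positivity)
        exact mul_le_mul_of_nonneg_left h3 hC.le

/-- the bound for `WW` -/
theorem ww_le (N u Q : ℕ) (t x : ℝ) (b : ℤ) (hN1 : 1 ≤ N) (hu1 : 1 ≤ u) (hQ1 : 1 ≤ Q)
    (hx : x = (N : ℝ) ^ ((3083 : ℝ) / 1000)) (hxQ : x ≤ 2 * (Q : ℝ))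
    (htu : |t - (b : ℝ) / (u : ℝ)| ≤ 1 / ((u : ℝ) * (Q : ℝ)))
    (hulo : (u : ℝ) < (N : ℝ) ^ ((1917 : ℝ) / 1000)) :
    WW N u t b ≤ 2 * (N : ℝ) ^ ((1917 : ℝ) / 1000) := by
  have hN1' : (1 : ℝ) ≤ (N : ℝ) := by exact_mod_cast hN1
  have hN0' : (0 : ℝ) < (N : ℝ) := by linarith
  have hu0 : (0 : ℝ) < (u : ℝ) := by exact_mod_cast hu1
  have hQ0 : (0 : ℝ) < (Q : ℝ) := by exact_mod_cast hQ1
  have h1917x : (N : ℝ) ^ 5 = (N : ℝ) ^ ((1917 : ℝ) / 1000) * x := by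
    rw [hx, ← Real.rpow_natCast, ← Real.rpow_add hN0']
    norm_num
  unfold WW
  have hp : (0 : ℝ) < (N : ℝ) ^ ((1917 : ℝ) / 1000) := by positivity
  refine max_le (by linarith) ?_
  calc |t - (b : ℝ) / (u : ℝ)| * (u : ℝ) * (N : ℝ) ^ 5
      ≤ 1 / ((u : ℝ) * (Q : ℝ)) * (u : ℝ) * (N : ℝ) ^ 5 := by
        refine mul_le_mul_of_nonneg_right ?_ (by positivity)
        exact mul_le_mul_of_nonneg_right htu hu0.le
    _ = (N : ℝ) ^ 5 / (Q : ℝ) := by field_simp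
    _ ≤ 2 * (N : ℝ) ^ ((1917 : ℝ) / 1000) := by
        rw [div_le_iff₀ hQ0, h1917x]
        have := mul_le_mul_of_nonneg_left hxQ hp.le
        linarith

/-- enlarging the constants -/
theorem fin_up (X A C P R : ℝ) (hX : X ≤ C * P * R) (hC : C ≤ A) (hP : 0 ≤ P) (hR : 0 ≤ R) :
    X ≤ A * P * R :=
  hX.trans (mul_le_mul_of_nonneg_right (mul_le_mul_of_nonneg_right hC hP) hR)

theorem ratio_le (N u q : ℕ) (hu : 1 ≤ u) (hq : 1 ≤ q) (hqu : q ≤ 2 * u) :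
    (1 + (N : ℝ) / (u : ℝ)) ^ 2 ≤ 4 * (1 + (N : ℝ) / (q : ℝ)) ^ 2 := by
  have hu0 : (0 : ℝ) < (u : ℝ) := by exact_mod_cast hu
  have hq0 : (0 : ℝ) < (q : ℝ) := by exact_mod_cast hq
  have hqu' : (q : ℝ) ≤ 2 * (u : ℝ) := by exact_mod_cast hqu
  have hN0 : (0 : ℝ) ≤ (N : ℝ) := Nat.cast_nonneg _
  have h7 : (N : ℝ) / (u : ℝ) ≤ 2 * ((N : ℝ) / (q : ℝ)) := by
    rw [← mul_div_assoc, div_le_div_iff₀ hu0 hq0]
    have := mul_le_mul_of_nonneg_left hqu' hN0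
    linarith
  have h8 : (0 : ℝ) ≤ (N : ℝ) / (u : ℝ) := by positivity
  have h9 : (0 : ℝ) ≤ (N : ℝ) / (q : ℝ) := by positivity
  calc (1 + (N : ℝ) / (u : ℝ)) ^ 2 ≤ (2 * (1 + (N : ℝ) / (q : ℝ))) ^ 2 :=
        pow_le_pow_left₀ (by positivity) (by linarith) 2
    _ = 4 * (1 + (N : ℝ) / (q : ℝ)) ^ 2 := by ring

theorem mt5 (bl2 : Bl2Stmt) (bl3 : Bl3Stmt) (dir : VM.DirStmt) (pru : PruStmt)
    (nu2 : Nu2Stmt) (nu3 : Nu3Stmt) : Mt5Stmt := by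
  obtain ⟨C3, N3, hC3, h3⟩ := case3 bl3 pru nu3
  obtain ⟨C2, N2, hC2, h2⟩ := case2 bl2 pru nu2
  obtain ⟨N₀, hN₀⟩ : ∃ N₀ : ℕ, N₀ = max (max N3 N2) 2 := ⟨_, rfl⟩
  have hN₀pos : (0 : ℝ) < (N₀ : ℝ) := by
    have : 0 < N₀ := by omega
    exact_mod_cast this
  obtain ⟨A, hA⟩ : ∃ A : ℝ, A = (N₀ : ℝ) ^ 40 := ⟨_, rfl⟩
  have hA0 : 0 < A := by rw [hA]; positivity
  refine ⟨A + C3 + 4 * C2, by positivity, ?_⟩
  intro N q a t ξ hN1 hq1 hgcd htq hq2 hq3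
  have hN1' : (1 : ℝ) ≤ (N : ℝ) := by exact_mod_cast hN1
  have hN0' : (0 : ℝ) < (N : ℝ) := by linarith
  have hq0 : (0 : ℝ) < (q : ℝ) := by exact_mod_cast hq1
  have hP1 : (1 : ℝ) ≤ (N : ℝ) ^ ((3748 : ℝ) / 100) := Real.one_le_rpow hN1' (by norm_num)
  have hP0 : (0 : ℝ) ≤ (N : ℝ) ^ ((3748 : ℝ) / 100) := by linarith
  have hR1 : (1 : ℝ) ≤ (1 + (N : ℝ) / (q : ℝ)) ^ 2 := by
    have : (0 : ℝ) ≤ (N : ℝ) / (q : ℝ) := by positivity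
    exact one_le_pow₀ (by linarith)
  have hR0 : (0 : ℝ) ≤ (1 + (N : ℝ) / (q : ℝ)) ^ 2 := by linarith
  have hX0 : 0 ≤ ‖WS t ξ N‖ := norm_nonneg _
  by_cases hlarge : N₀ ≤ N
  swap
  · -- small `N`
    have h4 : ‖WS t ξ N‖ ^ 40 ≤ A := by
      rw [hA]
      refine pow_le_pow_left₀ hX0 ((ws_le t ξ N).trans ?_) 40
      have : N ≤ N₀ := by omega
      exact_mod_cast this
    refine fin_up _ _ A _ _ (h4.trans ?_) (by linarith) hP0 hR0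
    calc A = A * 1 * 1 := by ring
      _ ≤ A * (N : ℝ) ^ ((3748 : ℝ) / 100) * (1 + (N : ℝ) / (q : ℝ)) ^ 2 :=
          mul_le_mul (mul_le_mul_of_nonneg_left hP1 hA0.le) hR1 (by norm_num)
            (mul_nonneg hA0.le hP0)
  have hN3 : N3 ≤ N := by omega
  have hN2 : N2 ≤ N := by omega
  have hNtwo : 2 ≤ N := by omega
  have hNtwo' : (2 : ℝ) ≤ (N : ℝ) := by exact_mod_cast hNtwo
  -- the level
  obtain ⟨x, hx⟩ : ∃ x : ℝ, x = (N : ℝ) ^ ((3083 : ℝ) / 1000) := ⟨_, rfl⟩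
  have hx0 : 0 < x := by rw [hx]; positivity
  have hx3 : (N : ℝ) ^ 3 ≤ x := by
    rw [hx, ← Real.rpow_natCast]
    exact Real.rpow_le_rpow_of_exponent_le hN1' (by norm_num)
  have hxG : x = (N : ℝ) ^ 3 * (N : ℝ) ^ ((83 : ℝ) / 1000) := by
    rw [hx, ← Real.rpow_natCast, ← Real.rpow_add hN0']
    norm_num
  obtain ⟨Q, hQ⟩ : ∃ Q : ℕ, Q = ⌊x⌋₊ := ⟨_, rfl⟩
  have hQx : (Q : ℝ) ≤ x := by rw [hQ]; exact Nat.floor_le hx0.le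
  have hQN : N ^ 3 ≤ Q := by
    rw [hQ]
    apply Nat.le_floor
    exact_mod_cast hx3
  have hQ1 : 1 ≤ Q := le_trans (Nat.one_le_pow _ _ (by omega)) hQN
  have hQ1' : (1 : ℝ) ≤ (Q : ℝ) := by exact_mod_cast hQ1
  have hxQ : x ≤ 2 * (Q : ℝ) := by
    have := Nat.lt_floor_add_one x
    rw [← hQ] at this
    linarith
  have h2q : 2 * q ≤ Q := by
    have h5 : (q : ℝ) ≤ (N : ℝ) ^ 2 := by
      refine hq3.trans ?_
      rw [← Real.rpow_natCast]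
      exact Real.rpow_le_rpow_of_exponent_le hN1' (by norm_num)
    have h5' : q ≤ N ^ 2 := by exact_mod_cast h5
    have h7 : 2 * q ≤ N ^ 3 := by
      calc 2 * q ≤ N * N ^ 2 := Nat.mul_le_mul hNtwo h5'
        _ = N ^ 3 := by ring
    exact h7.trans hQN
  obtain ⟨b, u, hu1, huQ, hqu, hgcdu, htu⟩ := dir t a q Q hq1 hgcd htq h2q
  have hu0 : (0 : ℝ) < (u : ℝ) := by exact_mod_cast hu1
  have huQ' : (u : ℝ) ≤ (Q : ℝ) := by exact_mod_cast huQ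
  have hqu' : (q : ℝ) ≤ 2 * (u : ℝ) := by exact_mod_cast hqu
  have htu2 : |t - (b : ℝ) / (u : ℝ)| ≤ 1 / (u : ℝ) ^ 2 := by
    refine htu.trans ?_
    rw [sq]
    exact one_div_le_one_div_of_le (by positivity) (mul_le_mul_of_nonneg_left huQ' hu0.le)
  by_cases hc : (N : ℝ) ^ 2 ≤ (u : ℝ) * (N : ℝ) ^ ((83 : ℝ) / 1000)
  · -- case III
    have h5 := h3 N u t ξ b hN3 hN1 hu1 hgcdu htu2 hc ((huQ'.trans hQx).trans hxG.le)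
    refine fin_up _ _ C3 _ _ (h5.trans ?_) (by linarith) hP0 hR0
    exact le_mul_of_one_le_right (mul_nonneg (by linarith) hP0) hR1
  · -- case II
    rw [not_le] at hc
    have hG1 : (1 : ℝ) ≤ (N : ℝ) ^ ((83 : ℝ) / 1000) := Real.one_le_rpow hN1' (by norm_num)
    have hG0 : (0 : ℝ) < (N : ℝ) ^ ((83 : ℝ) / 1000) := by linarith
    have h1917 : (N : ℝ) ^ 2 = (N : ℝ) ^ ((1917 : ℝ) / 1000) * (N : ℝ) ^ ((83 : ℝ) / 1000) := by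
      rw [← Real.rpow_natCast, ← Real.rpow_add hN0']
      norm_num
    have hulo : (u : ℝ) < (N : ℝ) ^ ((1917 : ℝ) / 1000) := by
      rw [h1917] at hc
      exact lt_of_mul_lt_mul_right hc hG0.le
    have huN2 : u < N ^ 2 := by
      have h6 : (u : ℝ) ≤ (u : ℝ) * (N : ℝ) ^ ((83 : ℝ) / 1000) :=
        le_mul_of_one_le_right hu0.le hG1
      have : (u : ℝ) < (N : ℝ) ^ 2 := lt_of_le_of_lt h6 hc
      exact_mod_cast this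
    have hW := ww_le N u Q t x b hN1 hu1 hQ1 hx hxQ htu hulo
    have h5 := h2 N u t ξ b hN2 hN1 hu1 hgcdu hW huN2 (hq2.trans hqu')
    have h6 := ratio_le N u q hu1 hq1 hqu
    refine fin_up _ _ (4 * C2) _ _ (h5.trans ?_) (by linarith) hP0 hR0
    calc C2 * (N : ℝ) ^ ((3748 : ℝ) / 100) * (1 + (N : ℝ) / (u : ℝ)) ^ 2
        ≤ C2 * (N : ℝ) ^ ((3748 : ℝ) / 100) * (4 * (1 + (N : ℝ) / (q : ℝ)) ^ 2) :=
          mul_le_mul_of_nonneg_left h6 (mul_nonneg hC2.le hP0)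
      _ = (4 * C2) * (N : ℝ) ^ ((3748 : ℝ) / 100) * (1 + (N : ℝ) / (q : ℝ)) ^ 2 := by ring

end Pool.Agent.VM5.H10
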